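import Pool.Agent.Helper76.T6.Kap

/-!
# The modules AVI, DBL, TIGHT
-/

set_option autoImplicit false

open Finset MeasureTheory

namespace Pool.Agent.Helper76.T6

open Pool.Agent.Helper15.T6 Pool.Agent.Helper46.T6
open Pool.Agent.Helper15.T4 (nsq)

theorem psiN_eq (d N : ℕ) : psiN d N = kap (hO d) ((N : ℝ) / d) := by
  unfold psiN kap
  refine integral_congr_ae (Filter.Eventually.of_forall fun O => ?_)
  dsimp only
  congr 1
  ring

theorem vb_eq (d : ℕ) {r : ℝ} (hr : 0 ≤ r) : vb d r = bl (hO d) (Real.sqrt r) := by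
  unfold vb bl
  rw [Real.sq_sqrt hr]

theorem st_DBL : ST_DBL := by
  intro d
  constructor
  · refine ⟨nc d 2, fun r hr => ?_⟩
    rw [vb_eq d (by positivity), vb_eq d hr.le]
    have h1 : Real.sqrt (4 * r) = 2 * Real.sqrt r := by
      rw [Real.sqrt_mul (by norm_num)]
      congr 1
      rw [show (4 : ℝ) = 2 ^ 2 by norm_num, Real.sqrt_sq (by norm_num)]
    rw [h1]
    exact covering (hO d) (Real.sqrt_pos.2 hr) (by norm_num)
  · obtain ⟨c, hc, h⟩ := bl_lower (hO d)
    refine ⟨c, d * d, hc, fun r hr hr1 => ?_⟩
    rw [vb_eq d hr.le]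
    have h1 : Real.sqrt r ≤ 1 := by
      exact Real.sqrt_le_one.2 hr1
    have h2 : r ≤ Real.sqrt r := by
      have h3 := Real.sq_sqrt hr.le
      have h4 := Real.sqrt_nonneg r
      nlinarith
    refine le_trans ?_ (h _ (Real.sqrt_pos.2 hr) h1)
    exact mul_le_mul_of_nonneg_left (pow_le_pow_left₀ hr.le h2 _) hc.le

theorem st_TIGHT : ST_TIGHT := by
  intro d hd
  have hd0 : (0 : ℝ) < d := by exact_mod_cast hd
  have hkey : ∀ c : ℝ, 0 < c → ∃ C : ℝ, 0 < C ∧ ∀ N : ℕ, 1 ≤ N →
      kap (hO d) (c * N) ≤ C * psiN d N := by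
    intro c hc
    obtain ⟨C, hC, h⟩ := kap_scale (hO d) (a := c * d) (by positivity)
    refine ⟨C, hC, fun N hN => ?_⟩
    have hN0 : (0 : ℝ) < N := by exact_mod_cast hN
    have h1 := h ((N : ℝ) / d) (by positivity)
    have h2 : c * d * ((N : ℝ) / d) = c * N := by
      field_simp
    rw [h2] at h1
    rw [psiN_eq]
    exact h1
  refine ⟨fun N => ⟨?_, ?_⟩, fun c η hc hη => ?_, fun c hc => ?_, ?_, fun R hR => ?_⟩
  · rcases Nat.eq_zero_or_pos N with hN | hN
    · subst hN
      unfold psiN
      simp
    · rw [psiN_eq]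
      have hN0 : (0 : ℝ) < N := by exact_mod_cast hN
      exact kap_pos (hO d) (by positivity)
  · rw [psiN_eq]
    unfold kap
    have h1 : ∫ O : GO d, Real.exp (-((N : ℝ) / d) * nsqm ((O : Md d) - 1)) ∂(hO d) ≤
        ∫ _O : GO d, (1 : ℝ) ∂(hO d) := by
      refine integral_mono (kap_int (hO d) _) (integrable_const _) fun O => ?_
      dsimp only
      rw [Real.exp_le_one_iff]
      have h2 := fro_nonneg ((O : Md d) - 1)
      have h3 : 0 ≤ (N : ℝ) / d := by positivity
      nlinarith [mul_nonneg h3 h2]
    refine h1.trans (le_of_eq ?_)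
    simp
  · obtain ⟨C, hC, h⟩ := hkey (c / 2) (by positivity)
    obtain ⟨R, hR⟩ : ∃ R : ℝ, R = -(2 / c) * Real.log (η / C) := ⟨_, rfl⟩
    refine ⟨R, fun N hN => ?_⟩
    have hN0 : (0 : ℝ) < N := by exact_mod_cast hN
    have h1 : ∫ O : GO d, (if R / N ≤ nsqm ((O : Md d) - 1) then
        Real.exp (-c * N * nsqm ((O : Md d) - 1)) else 0) ∂(hO d) ≤
        ∫ O : GO d, (η / C) * Real.exp (-(c / 2 * N) * nsqm ((O : Md d) - 1)) ∂(hO d) := by
      refine integral_mono_of_nonneg (Filter.Eventually.of_forall fun O => ?_)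
        ((kap_int (hO d) _).const_mul _) (Filter.Eventually.of_forall fun O => ?_)
      · dsimp only
        split_ifs
        · exact (Real.exp_pos _).le
        · exact le_rfl
      · dsimp only
        split_ifs with h2
        · rw [div_le_iff₀ hN0] at h2
          have h3 : -c * N * nsqm ((O : Md d) - 1) ≤ Real.log (η / C) +
              -(c / 2 * N) * nsqm ((O : Md d) - 1) := by
            have h4 : Real.log (η / C) = -(c / 2) * R := by
              rw [hR]
              field_simp
            rw [h4]
            nlinarith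
          calc Real.exp (-c * N * nsqm ((O : Md d) - 1)) ≤ Real.exp (Real.log (η / C) +
              -(c / 2 * N) * nsqm ((O : Md d) - 1)) := Real.exp_le_exp.2 h3
            _ = _ := by rw [Real.exp_add, Real.exp_log (by positivity)]
        · positivity
    refine h1.trans ?_
    rw [integral_const_mul]
    have h2 := h N hN
    unfold kap at h2
    calc η / C * ∫ O : GO d, Real.exp (-(c / 2 * N) * nsqm ((O : Md d) - 1)) ∂(hO d)
        ≤ η / C * (C * psiN d N) := mul_le_mul_of_nonneg_left h2 (by positivity)
      _ = η * psiN d N := by field_simp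
  · obtain ⟨C, hC, h⟩ := hkey c hc
    refine ⟨C, fun N hN => ?_⟩
    have h1 := h N hN
    unfold kap at h1
    refine le_trans (le_of_eq ?_) h1
    refine integral_congr_ae (Filter.Eventually.of_forall fun O => ?_)
    dsimp only
    congr 1
    ring
  · obtain ⟨c, hc, h⟩ := bl_lower (hO d)
    refine ⟨Real.exp (-1) * c, d * d, by positivity, fun N hN => ?_⟩
    have hN0 : (0 : ℝ) < N := by exact_mod_cast hN
    have hN1 : (1 : ℝ) ≤ N := by exact_mod_cast hN
    have hd1 : (1 : ℝ) ≤ d := by exact_mod_cast hd
    have h1 := kap_lower (hO d) (s := (N : ℝ) / d) (by positivity)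
    rw [← psiN_eq] at h1
    refine le_trans ?_ h1
    rw [mul_div_assoc]
    refine mul_le_mul_of_nonneg_left ?_ (Real.exp_pos _).le
    have h2 : 1 / (N : ℝ) ≤ 1 := by
      rw [div_le_one hN0]
      exact hN1
    refine le_trans ?_ ((h (1 / N) (by positivity) h2).trans (bl_mono (hO d) (by positivity) ?_))
    · rw [div_pow, one_pow, mul_one_div]
    · have h3 : Real.sqrt ((N : ℝ) / d) ≤ N := by
        rw [Real.sqrt_le_left hN0.le, div_le_iff₀ hd0]
        nlinarith [mul_le_mul hN1 hd1 zero_le_one hN0.le, sq_nonneg ((N : ℝ) - 1)]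
      exact one_div_le_one_div_of_le (Real.sqrt_pos.2 (by positivity)) h3
  · obtain ⟨C, hC, h⟩ := kap_upper (hO d)
    have hn := nc_pos (d := d) (Real.sqrt (d / R))
    refine ⟨(C * nc d (Real.sqrt (d / R)))⁻¹, by positivity, fun N hN => ?_⟩
    have hN0 : (0 : ℝ) < N := by exact_mod_cast hN
    rw [inv_mul_le_iff₀ (by positivity), vb_eq d (by positivity), psiN_eq]
    refine (h ((N : ℝ) / d) (by positivity)).trans ?_
    rw [mul_assoc]
    refine mul_le_mul_of_nonneg_left ?_ hC.le
    have h1 : 1 / Real.sqrt ((N : ℝ) / d) = Real.sqrt (d / R) * Real.sqrt (R / N) := by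
      rw [← Real.sqrt_mul (by positivity), one_div, ← Real.sqrt_inv]
      congr 1
      field_simp
    rw [h1]
    exact covering (hO d) (Real.sqrt_pos.2 (by positivity)) (Real.sqrt_nonneg _)

/-! ### invariance -/

theorem st_AVI : ST_AVI := by
  intro d K G _
  refine ⟨fun A B hA hB => ?_, fun e fl => ?_, ?_⟩
  · unfold AVd
    have hmp : MeasurePreserving (MeasurableEquiv.piCongrRight fun p : Fin K =>
        (MeasurableEquiv.mulLeft (OG.mk (A p) (hA p))).trans
          (MeasurableEquiv.mulRight (OG.mk (B p) (hB p))))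
        (Measure.pi fun _ => hO d) (Measure.pi fun _ => hO d) := by
      have h := measurePreserving_pi (μ := fun _ : Fin K => hO d) (ν := fun _ : Fin K => hO d)
        (f := fun p => ⇑((MeasurableEquiv.mulLeft (OG.mk (A p) (hA p))).trans
          (MeasurableEquiv.mulRight (OG.mk (B p) (hB p))))) (fun p =>
          (measurePreserving_mul_right (hO d) (OG.mk (B p) (hB p))).comp
            (measurePreserving_mul_left (hO d) (OG.mk (A p) (hA p))))
      exact h
    rw [← hmp.integral_comp' (g := fun O : Fin K → GO d => G (fun p => ((O p : GO d) : Md d)))]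
    rfl
  · unfold AVd
    have mp1 := measurePreserving_piCongrLeft (fun _ : Fin K => hO d) e.symm
    have mp2 : MeasurePreserving (MeasurableEquiv.piCongrRight fun p : Fin K =>
        if fl p = 0 then MeasurableEquiv.refl (GO d) else MeasurableEquiv.inv (GO d))
        (Measure.pi fun _ => hO d) (Measure.pi fun _ => hO d) := by
      have h := measurePreserving_pi (μ := fun _ : Fin K => hO d) (ν := fun _ : Fin K => hO d)
        (f := fun p => ⇑(if fl p = 0 then MeasurableEquiv.refl (GO d)
          else MeasurableEquiv.inv (GO d))) (fun p => by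
            by_cases h : fl p = 0
            · simp only [h, if_true]
              exact MeasurePreserving.id _
            · simp only [h, if_false]
              exact Measure.measurePreserving_inv (hO d))
      exact h
    rw [← (mp1.trans mp2).integral_comp' (g := fun O : Fin K → GO d =>
      G (fun p => ((O p : GO d) : Md d)))]
    refine integral_congr_ae (Filter.Eventually.of_forall fun O => ?_)
    dsimp only
    congr 1
    funext p
    rw [MeasurableEquiv.coe_trans, Function.comp_apply]
    have h3 : (MeasurableEquiv.piCongrLeft (fun _ : Fin K => GO d) e.symm) O p = O (e p) := by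
      have := MeasurableEquiv.piCongrLeft_apply_apply (β := fun _ : Fin K => GO d) e.symm O (e p)
      rwa [Equiv.symm_apply_apply] at this
    have h4 : ∀ X : Fin K → GO d, (MeasurableEquiv.piCongrRight fun p : Fin K =>
        if fl p = 0 then MeasurableEquiv.refl (GO d) else MeasurableEquiv.inv (GO d)) X p =
        (if fl p = 0 then MeasurableEquiv.refl (GO d) else MeasurableEquiv.inv (GO d)) (X p) :=
      fun _ => rfl
    rw [h4, h3]
    by_cases h : fl p = 0
    · rw [if_pos h, if_pos h]
      rfl
    · rw [if_neg h, if_neg h]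
      rfl
  · unfold AVd
    simp

end Pool.Agent.Helper76.T6
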