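import Pool.Agent.Helper15.T6.Stmts
import Pool.Agent.Helper76.T5.TLB

/-! Module TLB of t6_mods: masses of the tilted law. -/

set_option autoImplicit false

open Finset MeasureTheory Filter Topology

namespace Pool.Agent.Helper76.T6.TLB

open Pool.Agent.Helper15.T6
open Pool.Agent.Helper15.T4 (IsPM PM cov IsMat nsq po)

theorem tv_card {n d : ℕ} {F : Finset (Sym2 (HE n d))} (hF : IsMat F) :
    (tv F).card ≤ 2 * F.card ∧ 2 * F.card ≤ d * (tv F).card := by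
  classical
  have hc := Helper76.T5.TLB.cov_card hF
  constructor
  · rw [← hc]
    unfold tv
    exact Finset.card_image_le
  · rw [← hc]
    have h : cov F ⊆ tv F ×ˢ (univ : Finset (Fin d)) := by
      intro h hh
      rw [Finset.mem_product]
      refine ⟨?_, Finset.mem_univ _⟩
      unfold tv
      exact Finset.mem_image_of_mem _ hh
    have h' := Finset.card_le_card h
    rw [Finset.card_product, Finset.card_univ, Fintype.card_fin, mul_comm] at h'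
    exact h'

section intg

variable {ι : Type} [Fintype ι]

theorem mom_int {d : ℕ} {P : (ι → ℝ) → ℝ} {q : ℝ} (hP : MaxQ d P q) (a b : ℕ) :
    Integrable (fun x : ι → ℝ => |P x| ^ a * Real.sqrt (nsq x) ^ b * Real.exp (-(nsq x) / 2)) := by
  have hcont : Continuous (fun x : ι → ℝ => |P x| ^ a * Real.sqrt (nsq x) ^ b *
      Real.exp (-(nsq x) / 2)) := by
    have h1 := hP.cont
    have h2 := Helper76.T5.TLB.nsq_cont (ι := ι)
    fun_prop
  refine Integrable.mono' ((Helper76.T5.TLB.exp_int (ι := ι)).const_mul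
    (q ^ a * (((d * a + b).factorial : ℝ) * Real.exp 1))) hcont.aestronglyMeasurable
    (Filter.Eventually.of_forall fun x => ?_)
  have hs0 := Real.sqrt_nonneg (nsq x)
  have hs2 : Real.sqrt (nsq x) ^ 2 = nsq x := Real.sq_sqrt (Helper76.T5.TLB.nsq_nonneg x)
  rw [Real.norm_of_nonneg (by positivity)]
  have h1 : |P x| ^ a ≤ (q * Real.sqrt (nsq x) ^ d) ^ a :=
    pow_le_pow_left₀ (abs_nonneg _) (hP.le x) a
  have h2 := Helper76.T5.TLB.pow_le (d * a + b) (Real.sqrt (nsq x)) hs0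
  rw [hs2] at h2
  have hq : 0 ≤ q ^ a := pow_nonneg hP.q0.le a
  calc |P x| ^ a * Real.sqrt (nsq x) ^ b * Real.exp (-(nsq x) / 2)
      ≤ (q * Real.sqrt (nsq x) ^ d) ^ a * Real.sqrt (nsq x) ^ b * Real.exp (-(nsq x) / 2) := by
        gcongr
    _ = q ^ a * (Real.sqrt (nsq x) ^ (d * a + b) * Real.exp (-(nsq x) / 2)) := by
        rw [mul_pow, ← pow_mul, pow_add]
        ring
    _ ≤ q ^ a * (((d * a + b).factorial : ℝ) * Real.exp 1 * Real.exp (-(nsq x) / 4)) :=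
        mul_le_mul_of_nonneg_left h2 hq
    _ = _ := by ring

theorem GR_le {d : ℕ} {P : (ι → ℝ) → ℝ} {q : ℝ} (hP : MaxQ d P q)
    (φ : (ι → ℝ) → ℝ) (a b : ℕ) (K : ℝ)
    (h : ∀ x, |φ x| ≤ |P x| ^ a * K * Real.sqrt (nsq x) ^ b) :
    |GR φ| ≤ K * GR (fun x => |P x| ^ a * Real.sqrt (nsq x) ^ b) := by
  unfold GR
  have hp : (0 : ℝ) ≤ (2 * Real.pi) ^ (-(Fintype.card ι : ℝ) / 2) := by positivity
  rw [abs_mul, abs_of_nonneg hp, mul_left_comm, ← integral_const_mul]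
  refine mul_le_mul_of_nonneg_left ?_ hp
  rw [← Real.norm_eq_abs]
  refine norm_integral_le_of_norm_le ((mom_int hP a b).const_mul K)
    (Filter.Eventually.of_forall fun x => ?_)
  rw [norm_mul, Real.norm_eq_abs, Real.norm_of_nonneg (Real.exp_pos _).le]
  calc |φ x| * Real.exp (-(nsq x) / 2) ≤ |P x| ^ a * K * Real.sqrt (nsq x) ^ b *
        Real.exp (-(nsq x) / 2) := mul_le_mul_of_nonneg_right (h x) (Real.exp_pos _).le
    _ = _ := by ring

end intg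

theorem st_TLB (hSUMX : ST_SUMX) (hPSIB : ST_PSIB) (hXZ : ST_XZ) (hMJ : ST_MJ) (hZM : ST_ZM)
    (hPQ : ST_PQ) (hSOFB : ST_SOFB) : ST_TLB := by
  classical
  intro d hd K f
  obtain ⟨B, hB1, hB⟩ := hPSIB d _ (wJ d (Fin K × Fin 2))
  obtain ⟨hMax, _⟩ := hPQ d hd K
  obtain ⟨hpos, hbd⟩ := hSOFB (Fin K × Fin 2 → Fin d) d _ _ hMax
  have hA : ∀ v : ℕ, ∃ C : ℝ, 2 * f ≤ d * v → ∀ᶠ N : ℕ in atTop,
      GR (fun x : (Fin K × Fin 2 → Fin d) → ℝ => |PJ (Fin K × Fin 2) x| ^ (2 * N - v) *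
        Real.sqrt (nsq x) ^ (d * v - 2 * f)) * (2 * (d : ℝ) * (N : ℝ)) ^ f ≤
        C * GR (fun x : (Fin K × Fin 2 → Fin d) → ℝ => PJ (Fin K × Fin 2) x ^ (2 * N)) := by
    intro v
    by_cases hv : 2 * f ≤ d * v
    · obtain ⟨C, hC⟩ := hbd v f hv
      exact ⟨C, fun _ => hC⟩
    · exact ⟨0, fun h => absurd h hv⟩
  choose C hC using hA
  refine ⟨∑ v ∈ range (2 * f + 1), B ^ v * |C v|, ?_⟩
  have hev1 : ∀ᶠ N : ℕ in atTop, ∀ v ∈ range (2 * f + 1), 2 * f ≤ d * v →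
      GR (fun x : (Fin K × Fin 2 → Fin d) → ℝ => |PJ (Fin K × Fin 2) x| ^ (2 * N - v) *
        Real.sqrt (nsq x) ^ (d * v - 2 * f)) * (2 * (d : ℝ) * (N : ℝ)) ^ f ≤
        C v * GR (fun x : (Fin K × Fin 2 → Fin d) → ℝ => PJ (Fin K × Fin 2) x ^ (2 * N)) := by
    rw [Filter.eventually_all_finset]
    intro v _
    by_cases hv : 2 * f ≤ d * v
    · filter_upwards [hC v hv] with N hN _
      exact hN
    · exact Filter.Eventually.of_forall fun N h => absurd h hv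
  filter_upwards [hev1, Filter.eventually_gt_atTop 0] with N h1 hN F hF hFf
  have hN' : (0 : ℝ) < N := by exact_mod_cast hN
  have hd' : (3 : ℝ) ≤ d := by exact_mod_cast hd
  obtain ⟨S, hS⟩ : ∃ S : ℝ, S = ∑ M ∈ PM (univ : Finset (HE (2 * N) d)),
    ((Zc M : ℤ) : ℝ) ^ (2 * K) := ⟨_, rfl⟩
  have hSJ : S = GR (fun x : (Fin K × Fin 2 → Fin d) → ℝ => PJ (Fin K × Fin 2) x ^ (2 * N)) := by
    rw [hS]
    exact hZM d K (2 * N)
  have hSpos : 0 < S := by
    rw [hSJ]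
    exact hpos N
  obtain ⟨Y, hY⟩ : ∃ Y : ℝ, Y = ∑ M ∈ (PM (univ : Finset (HE (2 * N) d))).filter
      (fun M => F ⊆ M), ((Zc M : ℤ) : ℝ) ^ (2 * K) := ⟨_, rfl⟩
  have hY0 : 0 ≤ Y := by
    rw [hY]
    exact Finset.sum_nonneg fun x _ => by
      rw [pow_mul]
      positivity
  have hmass : mass (WK d K N) F = Y / S := by
    unfold mass WK
    rw [← Finset.sum_div, ← hS]
    congr 1
    rw [hY]
  have hYG : Y = GR (Psi (wJ d (Fin K × Fin 2)) F) := by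
    rw [← hSUMX d _ (wJ d (Fin K × Fin 2)) (2 * N) F hF, hY]
    refine Finset.sum_congr ?_ fun M _ => ?_
    · ext M
      simp
    · rw [hXZ, Fintype.card_prod, Fintype.card_fin, Fintype.card_fin, mul_comm K 2]
  obtain ⟨hv1, hv2⟩ := tv_card hF
  rw [hFf] at hv1 hv2
  obtain ⟨v, hv⟩ : ∃ v, v = (tv F).card := ⟨_, rfl⟩
  rw [← hv] at hv1 hv2
  have hGI := GR_le hMax (Psi (wJ d (Fin K × Fin 2)) F) (2 * N - v) (d * v - 2 * f) (B ^ v)
    (fun x => by
      have := hB (2 * N) F x hF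
      rw [← hv, hFf, (hMJ d (Fin K × Fin 2)).2 x] at this
      exact this)
  rw [← hYG, abs_of_nonneg hY0] at hGI
  have h3 := h1 v (Finset.mem_range.2 (by omega)) hv2
  rw [← hSJ] at h3
  obtain ⟨I, hI⟩ : ∃ I : ℝ, I = GR (fun x : (Fin K × Fin 2 → Fin d) → ℝ =>
    |PJ (Fin K × Fin 2) x| ^ (2 * N - v) * Real.sqrt (nsq x) ^ (d * v - 2 * f)) := ⟨_, rfl⟩
  rw [← hI] at hGI h3
  have hB0 : 0 ≤ B ^ v := pow_nonneg (by linarith) v
  have h4 : I * (2 * (d : ℝ) * (N : ℝ)) ^ f ≤ |C v| * S :=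
    h3.trans (mul_le_mul_of_nonneg_right (le_abs_self _) hSpos.le)
  have h6 : (2 * (N : ℝ)) ^ f ≤ (2 * (d : ℝ) * (N : ℝ)) ^ f := by
    refine pow_le_pow_left₀ (by positivity) ?_ f
    nlinarith
  have h2N : (0 : ℝ) < (2 * (N : ℝ)) ^ f := by positivity
  have h5 : Y * (2 * (N : ℝ)) ^ f ≤ B ^ v * |C v| * S := by
    calc Y * (2 * (N : ℝ)) ^ f ≤ Y * (2 * (d : ℝ) * (N : ℝ)) ^ f :=
          mul_le_mul_of_nonneg_left h6 hY0
      _ ≤ (B ^ v * I) * (2 * (d : ℝ) * (N : ℝ)) ^ f :=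
          mul_le_mul_of_nonneg_right hGI (by positivity)
      _ = B ^ v * (I * (2 * (d : ℝ) * (N : ℝ)) ^ f) := by ring
      _ ≤ B ^ v * (|C v| * S) := mul_le_mul_of_nonneg_left h4 hB0
      _ = B ^ v * |C v| * S := by ring
  have h7 : B ^ v * |C v| ≤ ∑ v ∈ range (2 * f + 1), B ^ v * |C v| := by
    refine Finset.single_le_sum (f := fun v => B ^ v * |C v|) (fun w _ => ?_)
      (Finset.mem_range.2 (by omega))
    have : 0 ≤ B ^ w := pow_nonneg (by linarith) w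
    positivity
  rw [hmass, le_div_iff₀ h2N, div_mul_eq_mul_div, div_le_iff₀ hSpos]
  exact h5.trans (mul_le_mul_of_nonneg_right h7 hSpos.le)

end Pool.Agent.Helper76.T6.TLB
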