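import Pool.Agent.Helper76.T6.Haar

/-!
# Balls of the orthogonal group: covering, doubling, tightness
-/

set_option autoImplicit false

open Finset MeasureTheory

namespace Pool.Agent.Helper76.T6

open Pool.Agent.Helper15.T6 Pool.Agent.Helper46.T6
open Pool.Agent.Helper15.T4 (nsq)

section cov

variable {d : ℕ} (μ : Measure (GO d))

/-- the measure of a ball around the unit -/
noncomputable def bl (r : ℝ) : ℝ := μ.real {O : GO d | nsqm ((O : Md d) - 1) ≤ r ^ 2}

theorem bl_nonneg (r : ℝ) : 0 ≤ bl μ r := measureReal_nonneg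

theorem bl_le_one [IsProbabilityMeasure μ] (r : ℝ) : bl μ r ≤ 1 := measureReal_le_one

theorem bl_mono [IsProbabilityMeasure μ] {r s : ℝ} (hr : 0 ≤ r) (h : r ≤ s) : bl μ r ≤ bl μ s := by
  unfold bl
  refine measureReal_mono fun O hO => ?_
  exact le_trans hO (pow_le_pow_left₀ hr h 2)

theorem bl_translate [μ.IsMulLeftInvariant] (A : GO d) (r : ℝ) :
    μ.real {O : GO d | nsqm ((O : Md d) - (A : Md d)) ≤ r ^ 2} = bl μ r := by
  have h1 : {O : GO d | nsqm ((O : Md d) - (A : Md d)) ≤ r ^ 2}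
      = (fun O => A⁻¹ * O) ⁻¹' {O : GO d | nsqm ((O : Md d) - 1) ≤ r ^ 2} := by
    ext O
    have h2 := OG.sub_eq A O
    constructor
    · intro h
      change nsqm (((A⁻¹ * O : GO d) : Md d) - 1) ≤ r ^ 2
      rw [h2]
      exact h
    · intro h
      change nsqm (((A⁻¹ * O : GO d) : Md d) - 1) ≤ r ^ 2 at h
      rw [h2] at h
      exact h
  unfold bl
  rw [h1, measureReal_def, measureReal_def, measure_preimage_mul]

theorem fro_le_of_entries {A : Md d} {s r : ℝ} (hr : 0 < r) (hs : s = r / (d + 1))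
    (h : ∀ i j, |A i j| ≤ s) : nsqm A ≤ r ^ 2 := by
  have hs0 : 0 < s := by
    rw [hs]
    positivity
  have h1 : nsqm A ≤ ∑ _i : Fin d, ∑ _j : Fin d, s ^ 2 := by
    unfold nsqm
    refine Finset.sum_le_sum fun i _ => Finset.sum_le_sum fun j _ => ?_
    rw [← sq_abs]
    exact pow_le_pow_left₀ (abs_nonneg _) (h i j) 2
  refine h1.trans ?_
  rw [Finset.sum_const, Finset.sum_const, Finset.card_univ, Fintype.card_fin, nsmul_eq_mul,
    nsmul_eq_mul, hs]
  have h2 : (d : ℝ) * (d * (r / (d + 1)) ^ 2) = r ^ 2 * ((d : ℝ) / (d + 1)) ^ 2 := by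
    field_simp
  rw [h2]
  have h3 : ((d : ℝ) / (d + 1)) ^ 2 ≤ 1 := by
    apply pow_le_one₀ (by positivity)
    rw [div_le_one (by positivity)]
    linarith
  nlinarith [sq_nonneg r]

/-- the number of the cells -/
noncomputable def nc (d : ℕ) (R : ℝ) : ℝ := (2 * (⌈R * (d + 1)⌉₊ : ℝ) + 1) ^ (d * d)

theorem nc_pos (R : ℝ) : 0 < nc d R := by
  unfold nc
  positivity

theorem covering [IsProbabilityMeasure μ] [μ.IsMulLeftInvariant] {R r : ℝ} (hr : 0 < r)
    (hR : 0 ≤ R) : bl μ (R * r) ≤ nc d R * bl μ r := by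
  classical
  obtain ⟨s, hs⟩ : ∃ s : ℝ, s = r / (d + 1) := ⟨_, rfl⟩
  have hs0 : 0 < s := by
    rw [hs]
    positivity
  obtain ⟨n, hn⟩ : ∃ n : ℕ, n = ⌈R * ((d : ℝ) + 1)⌉₊ := ⟨_, rfl⟩
  have hn1 : R * ((d : ℝ) + 1) ≤ n := by
    rw [hn]
    exact Nat.le_ceil _
  obtain ⟨S, hS⟩ : ∃ S : Set (GO d), S = {O : GO d | nsqm ((O : Md d) - 1) ≤ (R * r) ^ 2} :=
    ⟨_, rfl⟩
  obtain ⟨key, hkey⟩ : ∃ key : GO d → (Fin d × Fin d) → ℤ,
      key = fun (O : GO d) (p : Fin d × Fin d) =>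
      ⌊((O : Md d) p.1 p.2 - (1 : Md d) p.1 p.2) / s⌋ := ⟨_, rfl⟩
  obtain ⟨I, hI⟩ : ∃ I : Finset (Fin d × Fin d → ℤ), I = Fintype.piFinset
      (fun _ => Finset.Icc (-(n : ℤ)) n) := ⟨_, rfl⟩
  have hcov : S ⊆ ⋃ c ∈ I, (S ∩ {O | key O = c}) := by
    intro O hO
    rw [Set.mem_iUnion₂]
    refine ⟨key O, ?_, hO, rfl⟩
    rw [hI, Fintype.mem_piFinset]
    intro p
    have h1 : ((O : Md d) p.1 p.2 - (1 : Md d) p.1 p.2) ^ 2 ≤ (R * r) ^ 2 := by
      have h2 := sq_le_fro ((O : Md d) - 1) p.1 p.2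
      rw [Matrix.sub_apply] at h2
      rw [hS] at hO
      exact h2.trans hO
    have h3 : |(O : Md d) p.1 p.2 - (1 : Md d) p.1 p.2| ≤ R * r :=
      abs_le_of_sq_le_sq h1 (by positivity)
    have h4 : |((O : Md d) p.1 p.2 - (1 : Md d) p.1 p.2) / s| ≤ n := by
      rw [abs_div, abs_of_pos hs0, div_le_iff₀ hs0]
      refine h3.trans ?_
      have h5 : R * r = R * ((d : ℝ) + 1) * s := by
        rw [hs]
        field_simp
      rw [h5]
      exact mul_le_mul_of_nonneg_right hn1 hs0.le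
    rw [abs_le] at h4
    rw [Finset.mem_Icc, hkey]
    dsimp only
    constructor
    · rw [Int.le_floor]
      push_cast
      exact h4.1
    · have h6 : (⌊((O : Md d) p.1 p.2 - (1 : Md d) p.1 p.2) / s⌋ : ℝ) ≤ n :=
        (Int.floor_le _).trans h4.2
      exact_mod_cast h6
  have hcell : ∀ c, μ.real (S ∩ {O | key O = c}) ≤ bl μ r := by
    intro c
    by_cases hne : (S ∩ {O | key O = c}).Nonempty
    · obtain ⟨A, hA⟩ := hne
      rw [← bl_translate μ A r]
      refine measureReal_mono fun O hO => ?_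
      refine fro_le_of_entries hr hs fun i j => ?_
      have h1 : key O (i, j) = key A (i, j) := by
        rw [hO.2, hA.2]
      rw [hkey] at h1
      dsimp only at h1
      have h2 := Int.abs_sub_lt_one_of_floor_eq_floor h1
      rw [← sub_div, abs_div, abs_of_pos hs0, div_lt_one hs0] at h2
      have h3 : (O : Md d) i j - (1 : Md d) i j - ((A : Md d) i j - (1 : Md d) i j)
          = ((O : Md d) - (A : Md d)) i j := by
        rw [Matrix.sub_apply]
        ring
      rw [h3] at h2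
      exact h2.le
    · rw [Set.not_nonempty_iff_eq_empty] at hne
      rw [hne, measureReal_empty]
      exact bl_nonneg μ r
  have h1 : bl μ (R * r) ≤ ∑ c ∈ I, μ.real (S ∩ {O | key O = c}) := by
    unfold bl
    rw [← hS]
    refine (measureReal_mono hcov ?_).trans (measureReal_biUnion_finset_le _ _)
    exact measure_ne_top _ _
  refine h1.trans ((Finset.sum_le_sum fun c _ => hcell c).trans (le_of_eq ?_))
  rw [Finset.sum_const, nsmul_eq_mul, hI, Fintype.card_piFinset]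
  congr 1
  unfold nc
  rw [Finset.prod_const, Finset.card_univ, Fintype.card_prod, Fintype.card_fin, Int.card_Icc, ← hn]
  have h2 : ((n : ℤ) + 1 - -(n : ℤ)).toNat = 2 * n + 1 := by omega
  rw [h2]
  push_cast
  ring

end cov

end Pool.Agent.Helper76.T6
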