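import Pool.Agent.Helper46.T6.Stmts

/-!
# The Haar probability of the orthogonal group `O(d)`
-/

set_option autoImplicit false

open Finset MeasureTheory

namespace Pool.Agent.Helper76.T6

open Pool.Agent.Helper15.T6 Pool.Agent.Helper46.T6
open Pool.Agent.Helper15.T4 (nsq)

theorem fro_nonneg {d : ℕ} (A : Md d) : 0 ≤ nsqm A :=
  Finset.sum_nonneg fun _ _ => Finset.sum_nonneg fun _ _ => sq_nonneg _

theorem fro_eq_trace {d : ℕ} (A : Md d) : nsqm A = (A.transpose * A).trace := by
  unfold nsqm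
  rw [Matrix.trace, Finset.sum_comm]
  refine Finset.sum_congr rfl fun j _ => ?_
  rw [Matrix.diag_apply, Matrix.mul_apply]
  exact Finset.sum_congr rfl fun i _ => by rw [Matrix.transpose_apply]; ring

theorem fro_transpose {d : ℕ} (A : Md d) : nsqm A.transpose = nsqm A := by
  unfold nsqm
  rw [Finset.sum_comm]
  rfl

theorem fro_mul_left {d : ℕ} {O : Md d} (hO : O.transpose * O = 1) (A : Md d) :
    nsqm (O * A) = nsqm A := by
  rw [fro_eq_trace, fro_eq_trace, Matrix.transpose_mul, Matrix.mul_assoc,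
    ← Matrix.mul_assoc O.transpose, hO, Matrix.one_mul]

theorem fro_mul_right {d : ℕ} {O : Md d} (hO : O * O.transpose = 1) (A : Md d) :
    nsqm (A * O) = nsqm A := by
  rw [← fro_transpose, Matrix.transpose_mul, fro_mul_left, fro_transpose]
  rw [Matrix.transpose_transpose, hO]

theorem sq_le_fro {d : ℕ} (A : Md d) (i j : Fin d) : A i j ^ 2 ≤ nsqm A := by
  unfold nsqm
  exact (Finset.single_le_sum (f := fun j => A i j ^ 2) (fun _ _ => sq_nonneg _)
    (Finset.mem_univ j)).trans (Finset.single_le_sum (f := fun i => ∑ j, A i j ^ 2)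
    (fun _ _ => Finset.sum_nonneg fun _ _ => sq_nonneg _) (Finset.mem_univ i))

theorem fro_one (d : ℕ) : nsqm (1 : Md d) = d := by
  rw [fro_eq_trace, Matrix.transpose_one, Matrix.one_mul, Matrix.trace_one, Fintype.card_fin]

theorem continuous_fro {d : ℕ} : Continuous (nsqm : Md d → ℝ) := by
  unfold nsqm
  fun_prop

theorem OG.left {d : ℕ} (O : GO d) : (O : Md d).transpose * (O : Md d) = 1 := by
  have h := O.2
  rw [Matrix.mem_orthogonalGroup_iff'] at h
  exact h

theorem OG.right {d : ℕ} (O : GO d) : (O : Md d) * (O : Md d).transpose = 1 := by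
  have h := O.2
  rw [Matrix.mem_orthogonalGroup_iff] at h
  exact h

/-- an orthogonal matrix as an element of the group -/
def OG.mk {d : ℕ} (A : Md d) (hA : A * A.transpose = 1) : GO d :=
  ⟨A, (Matrix.mem_orthogonalGroup_iff (Fin d) ℝ).2 hA⟩

theorem OG.coe_mk {d : ℕ} (A : Md d) (hA : A * A.transpose = 1) : ((OG.mk A hA : GO d) : Md d) = A :=
  rfl

theorem OG.coe_mul {d : ℕ} (A B : GO d) : ((A * B : GO d) : Md d) = (A : Md d) * (B : Md d) := rfl

theorem OG.coe_inv {d : ℕ} (A : GO d) : ((A⁻¹ : GO d) : Md d) = (A : Md d).transpose := rfl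

theorem OG.coe_one {d : ℕ} : ((1 : GO d) : Md d) = 1 := rfl

theorem OG.fro {d : ℕ} (O : GO d) : nsqm (O : Md d) = d := by
  rw [fro_eq_trace, OG.left, Matrix.trace_one, Fintype.card_fin]

theorem OG.fro_sub_one {d : ℕ} (O : GO d) : nsqm ((O : Md d) - 1) = 2 * (d - (O : Md d).trace) := by
  rw [fro_eq_trace, Matrix.transpose_sub, Matrix.transpose_one, Matrix.sub_mul, Matrix.mul_sub,
    OG.left, Matrix.one_mul, Matrix.mul_one, Matrix.trace_sub, Matrix.trace_sub, Matrix.trace_sub,
    Matrix.trace_one, Fintype.card_fin, Matrix.trace_transpose]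
  ring

theorem OG.fro_le {d : ℕ} (O : GO d) : nsqm ((O : Md d) - 1) ≤ 4 * d := by
  unfold nsqm
  have h1 : ∑ i, ∑ j, ((O : Md d) - 1) i j ^ 2 ≤ ∑ i, ∑ j, (2 * (O : Md d) i j ^ 2
      + 2 * (1 : Md d) i j ^ 2) := by
    refine Finset.sum_le_sum fun i _ => Finset.sum_le_sum fun j _ => ?_
    rw [Matrix.sub_apply]
    nlinarith [sq_nonneg ((O : Md d) i j + (1 : Md d) i j)]
  refine h1.trans (le_of_eq ?_)
  have h2 := OG.fro O
  have h3 := fro_one d
  unfold nsqm at h2 h3
  simp only [Finset.sum_add_distrib, ← Finset.mul_sum, h2, h3]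
  ring

theorem OG.sub_eq {d : ℕ} (A O : GO d) :
    nsqm (((A⁻¹ * O : GO d) : Md d) - 1) = nsqm ((O : Md d) - (A : Md d)) := by
  have h : ((A⁻¹ * O : GO d) : Md d) - 1 = (A : Md d).transpose * ((O : Md d) - (A : Md d)) := by
    rw [Matrix.mul_sub, OG.left]
    rfl
  rw [h, fro_mul_left]
  rw [Matrix.transpose_transpose, OG.right]

theorem OG.continuous_coe {d : ℕ} : Continuous (fun O : GO d => (O : Md d)) :=
  continuous_subtype_val

end Pool.Agent.Helper76.T6
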