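import Pool.Agent.Helper76.T6.Cov

/-!
# The Gaussian mass of the orthogonal group near the unit
-/

set_option autoImplicit false

open Finset MeasureTheory

namespace Pool.Agent.Helper76.T6

open Pool.Agent.Helper15.T6 Pool.Agent.Helper46.T6
open Pool.Agent.Helper15.T4 (nsq)

section kap

variable {d : ℕ} (μ : Measure (GO d))

/-- the Gaussian mass -/
noncomputable def kap (s : ℝ) : ℝ := ∫ O : GO d, Real.exp (-s * nsqm ((O : Md d) - 1)) ∂μ

theorem continuous_fro_sub (A : Md d) : Continuous fun O : GO d => nsqm ((O : Md d) - A) :=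
  continuous_fro.comp (OG.continuous_coe.sub continuous_const)

theorem integrable_of_cont [IsProbabilityMeasure μ] {f : GO d → ℝ} (hf : Continuous f) :
    Integrable f μ := by
  have h := hf.integrable_of_hasCompactSupport (μ := μ) (HasCompactSupport.of_compactSpace f)
  exact h

theorem kap_int [IsProbabilityMeasure μ] (s : ℝ) :
    Integrable (fun O : GO d => Real.exp (-s * nsqm ((O : Md d) - 1))) μ :=
  integrable_of_cont μ (Real.continuous_exp.comp (continuous_const.mul (continuous_fro_sub 1)))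

theorem measurableSet_ball (r : ℝ) : MeasurableSet {O : GO d | nsqm ((O : Md d) - 1) ≤ r} :=
  (isClosed_le (continuous_fro_sub 1) continuous_const).measurableSet

theorem kap_lower [IsProbabilityMeasure μ] {s : ℝ} (hs : 0 < s) :
    Real.exp (-1) * bl μ (1 / Real.sqrt s) ≤ kap μ s := by
  have h1 : (1 / Real.sqrt s) ^ 2 = 1 / s := by
    rw [div_pow, Real.sq_sqrt hs.le, one_pow]
  have h2 : Real.exp (-1) * bl μ (1 / Real.sqrt s) = ∫ O : GO d, ({O : GO d |
      nsqm ((O : Md d) - 1) ≤ 1 / s}).indicator (fun _ => Real.exp (-1)) O ∂μ := by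
    rw [integral_indicator_const _ (measurableSet_ball _), smul_eq_mul, mul_comm]
    unfold bl
    rw [h1]
  rw [h2]
  unfold kap
  refine integral_mono ((integrable_const _).indicator (measurableSet_ball _)) (kap_int μ s) ?_
  intro O
  dsimp only
  by_cases hO : O ∈ {O : GO d | nsqm ((O : Md d) - 1) ≤ 1 / s}
  · rw [Set.indicator_of_mem hO]
    refine Real.exp_le_exp.2 ?_
    have h3 : nsqm ((O : Md d) - 1) ≤ 1 / s := hO
    rw [le_div_iff₀ hs] at h3
    linarith
  · rw [Set.indicator_of_notMem hO]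
    positivity

theorem bl_pos [IsProbabilityMeasure μ] [μ.IsMulLeftInvariant] {r : ℝ} (hr : 0 < r) :
    0 < bl μ r := by
  have h1 : bl μ ((2 * (d + 1) / r) * r) = 1 := by
    unfold bl
    rw [div_mul_cancel₀ _ hr.ne']
    have h2 : {O : GO d | nsqm ((O : Md d) - 1) ≤ (2 * ((d : ℝ) + 1)) ^ 2} = Set.univ := by
      ext O
      constructor
      · intro _; trivial
      · intro _
        have h3 := OG.fro_le O
        have h4 : (0 : ℝ) ≤ d := Nat.cast_nonneg d
        change nsqm ((O : Md d) - 1) ≤ (2 * ((d : ℝ) + 1)) ^ 2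
        nlinarith
    rw [h2]
    simp
  have h2 := covering μ (R := 2 * (d + 1) / r) hr (by positivity)
  rw [h1] at h2
  have h3 := nc_pos (d := d) (2 * (d + 1) / r)
  by_contra h4
  push Not at h4
  have h5 : nc d (2 * (d + 1) / r) * bl μ r ≤ 0 := mul_nonpos_of_nonneg_of_nonpos h3.le h4
  linarith

theorem bl_lower [IsProbabilityMeasure μ] [μ.IsMulLeftInvariant] :
    ∃ c : ℝ, 0 < c ∧ ∀ r : ℝ, 0 < r → r ≤ 1 → c * r ^ (d * d) ≤ bl μ r := by
  refine ⟨((2 * (2 * ((d : ℝ) + 1) ^ 2 + 1) + 1) ^ (d * d))⁻¹, by positivity, fun r hr hr1 => ?_⟩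
  have h1 : bl μ ((2 * (d + 1) / r) * r) = 1 := by
    unfold bl
    rw [div_mul_cancel₀ _ hr.ne']
    have h2 : {O : GO d | nsqm ((O : Md d) - 1) ≤ (2 * ((d : ℝ) + 1)) ^ 2} = Set.univ := by
      ext O
      constructor
      · intro _; trivial
      · intro _
        have h3 := OG.fro_le O
        have h4 : (0 : ℝ) ≤ d := Nat.cast_nonneg d
        change nsqm ((O : Md d) - 1) ≤ (2 * ((d : ℝ) + 1)) ^ 2
        nlinarith
    rw [h2]
    simp
  have h2 := covering μ (R := 2 * (d + 1) / r) hr (by positivity)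
  rw [h1] at h2
  have h3 : nc d (2 * (d + 1) / r) ≤ ((2 * (2 * ((d : ℝ) + 1) ^ 2 + 1) + 1) / r) ^ (d * d) := by
    unfold nc
    refine pow_le_pow_left₀ (by positivity) ?_ _
    have h4 : (⌈2 * ((d : ℝ) + 1) / r * (d + 1)⌉₊ : ℝ) ≤ 2 * ((d : ℝ) + 1) / r * (d + 1) + 1 :=
      (Nat.ceil_lt_add_one (by positivity)).le
    have h5 : 2 * (2 * ((d : ℝ) + 1) / r * (d + 1) + 1) + 1
        ≤ (2 * (2 * ((d : ℝ) + 1) ^ 2 + 1) + 1) / r := by
      rw [le_div_iff₀ hr]
      have h6 : (2 * (2 * ((d : ℝ) + 1) / r * (d + 1) + 1) + 1) * r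
          = 2 * (2 * ((d : ℝ) + 1) ^ 2) + 3 * r := by
        field_simp
        ring
      rw [h6]
      linarith
    linarith
  have h4 : 1 ≤ ((2 * (2 * ((d : ℝ) + 1) ^ 2 + 1) + 1) / r) ^ (d * d) * bl μ r :=
    h2.trans (mul_le_mul_of_nonneg_right h3 (bl_nonneg μ r))
  rw [div_pow, div_mul_eq_mul_div, le_div_iff₀ (by positivity), one_mul] at h4
  rw [inv_mul_le_iff₀ (by positivity)]
  exact h4

theorem nc_le {n : ℕ} : nc d (Real.sqrt (n + 1)) ≤
    (2 * ((d : ℝ) + 2) + 1) ^ (d * d) * ((n : ℝ) + 1) ^ (d * d) := by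
  unfold nc
  rw [← mul_pow]
  refine pow_le_pow_left₀ (by positivity) ?_ _
  have h1 : Real.sqrt ((n : ℝ) + 1) ≤ (n : ℝ) + 1 := by
    rw [Real.sqrt_le_left (by positivity)]
    nlinarith [Nat.cast_nonneg (α := ℝ) n]
  have h4 : (⌈Real.sqrt ((n : ℝ) + 1) * ((d : ℝ) + 1)⌉₊ : ℝ)
      ≤ Real.sqrt ((n : ℝ) + 1) * ((d : ℝ) + 1) + 1 := (Nat.ceil_lt_add_one (by positivity)).le
  have h5 : Real.sqrt ((n : ℝ) + 1) * ((d : ℝ) + 1) ≤ ((n : ℝ) + 1) * ((d : ℝ) + 1) :=
    mul_le_mul_of_nonneg_right h1 (by positivity)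
  nlinarith [Nat.cast_nonneg (α := ℝ) n, Nat.cast_nonneg (α := ℝ) d]

theorem summable_aux (k : ℕ) : Summable fun n : ℕ => Real.exp (-(n : ℝ)) * ((n : ℝ) + 1) ^ k := by
  have h1 := Real.summable_pow_mul_exp_neg_nat_mul k (r := 1) one_pos
  have h2 : Summable fun n : ℕ => ((n + 1 : ℕ) : ℝ) ^ k * Real.exp (-1 * ((n + 1 : ℕ) : ℝ)) :=
    (summable_nat_add_iff 1).2 h1
  refine (h2.mul_left (Real.exp 1)).congr fun n => ?_
  have h3 : Real.exp (-(n : ℝ)) = Real.exp 1 * Real.exp (-1 * ((n + 1 : ℕ) : ℝ)) := by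
    rw [← Real.exp_add]
    congr 1
    push_cast
    ring
  rw [h3]
  push_cast
  ring

theorem kap_upper [IsProbabilityMeasure μ] [μ.IsMulLeftInvariant] : ∃ C : ℝ, 0 < C ∧
    ∀ s : ℝ, 0 < s → kap μ s ≤ C * bl μ (1 / Real.sqrt s) := by
  have hsum : Summable fun n : ℕ => Real.exp (-(n : ℝ)) *
      ((2 * ((d : ℝ) + 2) + 1) ^ (d * d) * ((n : ℝ) + 1) ^ (d * d)) := by
    refine ((summable_aux (d * d)).mul_left ((2 * ((d : ℝ) + 2) + 1) ^ (d * d))).congr fun n => ?_
    ring
  refine ⟨∑' n : ℕ, Real.exp (-(n : ℝ)) *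
      ((2 * ((d : ℝ) + 2) + 1) ^ (d * d) * ((n : ℝ) + 1) ^ (d * d)), ?_, fun s hs => ?_⟩
  · refine hsum.tsum_pos (fun n => by positivity) 0 (by positivity)
  · have hss : 0 < Real.sqrt s := Real.sqrt_pos.2 hs
    have hb := bl_nonneg μ (1 / Real.sqrt s)
    have hset : ∀ n : ℕ, μ.real {O : GO d | s * nsqm ((O : Md d) - 1) ≤ n + 1}
        ≤ (2 * ((d : ℝ) + 2) + 1) ^ (d * d) * ((n : ℝ) + 1) ^ (d * d) *
          bl μ (1 / Real.sqrt s) := by
      intro n
      have h1 : {O : GO d | s * nsqm ((O : Md d) - 1) ≤ n + 1}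
          = {O : GO d | nsqm ((O : Md d) - 1) ≤ (Real.sqrt (n + 1) * (1 / Real.sqrt s)) ^ 2} := by
        ext O
        change s * nsqm ((O : Md d) - 1) ≤ n + 1 ↔
          nsqm ((O : Md d) - 1) ≤ (Real.sqrt (n + 1) * (1 / Real.sqrt s)) ^ 2
        rw [mul_pow, div_pow, Real.sq_sqrt hs.le, Real.sq_sqrt (by positivity), one_pow,
          mul_one_div, le_div_iff₀ hs, mul_comm]
      have h2 := covering μ (R := Real.sqrt (n + 1)) (r := 1 / Real.sqrt s) (by positivity)
        (by positivity)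
      unfold bl at h2
      rw [h1]
      refine h2.trans (mul_le_mul_of_nonneg_right nc_le hb)
    have hle : ∫⁻ O : GO d, ENNReal.ofReal (Real.exp (-s * nsqm ((O : Md d) - 1))) ∂μ ≤
        ENNReal.ofReal ((∑' n : ℕ, Real.exp (-(n : ℝ)) *
        ((2 * ((d : ℝ) + 2) + 1) ^ (d * d) * ((n : ℝ) + 1) ^ (d * d))) * bl μ (1 / Real.sqrt s)) := by
      have h1 : ∀ O : GO d, ENNReal.ofReal (Real.exp (-s * nsqm ((O : Md d) - 1))) ≤
          ∑' n : ℕ, ({O : GO d | s * nsqm ((O : Md d) - 1) ≤ n + 1}).indicator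
            (fun _ => ENNReal.ofReal (Real.exp (-(n : ℝ)))) O := by
        intro O
        have h0 : 0 ≤ s * nsqm ((O : Md d) - 1) := mul_nonneg hs.le (fro_nonneg _)
        refine le_trans ?_ (ENNReal.le_tsum ⌊s * nsqm ((O : Md d) - 1)⌋₊)
        rw [Set.indicator_of_mem]
        · refine ENNReal.ofReal_le_ofReal (Real.exp_le_exp.2 ?_)
          have := Nat.floor_le h0
          linarith
        · have h5 : s * nsqm ((O : Md d) - 1) ≤ (⌊s * nsqm ((O : Md d) - 1)⌋₊ : ℝ) + 1 :=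
            (Nat.lt_floor_add_one _).le
          exact h5
      refine (lintegral_mono h1).trans ?_
      rw [lintegral_tsum]
      · have h2 : ∀ n : ℕ, ∫⁻ O : GO d, ({O : GO d | s * nsqm ((O : Md d) - 1) ≤ n + 1}).indicator
            (fun _ => ENNReal.ofReal (Real.exp (-(n : ℝ)))) O ∂μ ≤
            ENNReal.ofReal (Real.exp (-(n : ℝ)) * ((2 * ((d : ℝ) + 2) + 1) ^ (d * d) *
              ((n : ℝ) + 1) ^ (d * d)) * bl μ (1 / Real.sqrt s)) := by
          intro n
          have hm : MeasurableSet {O : GO d | s * nsqm ((O : Md d) - 1) ≤ n + 1} :=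
            (isClosed_le (continuous_const.mul (continuous_fro_sub 1))
              continuous_const).measurableSet
          rw [lintegral_indicator_const hm, ← ofReal_measureReal,
            ← ENNReal.ofReal_mul (Real.exp_pos _).le]
          refine ENNReal.ofReal_le_ofReal ?_
          rw [mul_assoc]
          exact mul_le_mul_of_nonneg_left (hset n) (Real.exp_pos _).le
        refine (ENNReal.tsum_le_tsum h2).trans (le_of_eq ?_)
        rw [← ENNReal.ofReal_tsum_of_nonneg (fun n => by positivity) (hsum.mul_right _),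
          tsum_mul_right]
      · intro n
        have hm : MeasurableSet {O : GO d | s * nsqm ((O : Md d) - 1) ≤ n + 1} :=
            (isClosed_le (continuous_const.mul (continuous_fro_sub 1))
              continuous_const).measurableSet
        exact (measurable_const.indicator hm).aemeasurable
    unfold kap
    rw [integral_eq_lintegral_of_nonneg_ae (Filter.Eventually.of_forall fun O =>
      (Real.exp_pos _).le) (kap_int μ s).aestronglyMeasurable]
    refine ENNReal.toReal_le_of_le_ofReal ?_ hle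
    refine mul_nonneg (tsum_nonneg fun n => by positivity) hb

theorem kap_pos [IsProbabilityMeasure μ] [μ.IsMulLeftInvariant] {s : ℝ} (hs : 0 < s) :
    0 < kap μ s :=
  lt_of_lt_of_le (mul_pos (Real.exp_pos _) (bl_pos μ (by positivity))) (kap_lower μ hs)

/-- all the powers of the Gaussian mass are comparable -/
theorem kap_scale [IsProbabilityMeasure μ] [μ.IsMulLeftInvariant] {a : ℝ} (ha : 0 < a) :
    ∃ C : ℝ, 0 < C ∧ ∀ s : ℝ, 0 < s → kap μ (a * s) ≤ C * kap μ s := by
  obtain ⟨C, hC, h⟩ := kap_upper μ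
  refine ⟨C * nc d (1 / Real.sqrt a) * Real.exp 1, by have := nc_pos (d := d) (1 / Real.sqrt a); positivity,
    fun s hs => ?_⟩
  have h1 := h (a * s) (by positivity)
  have h2 : 1 / Real.sqrt (a * s) = (1 / Real.sqrt a) * (1 / Real.sqrt s) := by
    rw [Real.sqrt_mul ha.le]
    field_simp
  rw [h2] at h1
  have h3 := covering μ (R := 1 / Real.sqrt a) (r := 1 / Real.sqrt s) (by positivity) (by positivity)
  have h4 := kap_lower μ hs
  have h5 : bl μ (1 / Real.sqrt s) ≤ Real.exp 1 * kap μ s := by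
    have h6 : Real.exp 1 * (Real.exp (-1) * bl μ (1 / Real.sqrt s)) ≤ Real.exp 1 * kap μ s :=
      mul_le_mul_of_nonneg_left h4 (Real.exp_pos _).le
    rwa [← mul_assoc, ← Real.exp_add, add_neg_cancel, Real.exp_zero, one_mul] at h6
  have hn := nc_pos (d := d) (1 / Real.sqrt a)
  calc kap μ (a * s) ≤ C * bl μ (1 / Real.sqrt a * (1 / Real.sqrt s)) := h1
    _ ≤ C * (nc d (1 / Real.sqrt a) * bl μ (1 / Real.sqrt s)) :=
        mul_le_mul_of_nonneg_left h3 hC.le
    _ ≤ C * (nc d (1 / Real.sqrt a) * (Real.exp 1 * kap μ s)) :=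
        mul_le_mul_of_nonneg_left (mul_le_mul_of_nonneg_left h5 hn.le) hC.le
    _ = C * nc d (1 / Real.sqrt a) * Real.exp 1 * kap μ s := by ring

/-- moments under the tilted law -/
theorem kap_moment [IsProbabilityMeasure μ] [μ.IsMulLeftInvariant] (k : ℕ) :
    ∃ C : ℝ, 0 < C ∧ ∀ s : ℝ, 0 < s →
      ∫ O : GO d, (s * nsqm ((O : Md d) - 1)) ^ k * Real.exp (-s * nsqm ((O : Md d) - 1)) ∂μ ≤
        C * kap μ s := by
  obtain ⟨C, hC, h⟩ := kap_scale μ (a := 1 / 2) (by norm_num)
  refine ⟨2 ^ k * (k.factorial : ℝ) * C, by positivity, fun s hs => ?_⟩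
  have h1 : ∫ O : GO d, (s * nsqm ((O : Md d) - 1)) ^ k * Real.exp (-s * nsqm ((O : Md d) - 1)) ∂μ
      ≤ ∫ O : GO d, 2 ^ k * (k.factorial : ℝ) * Real.exp (-(1 / 2 * s) * nsqm ((O : Md d) - 1)) ∂μ := by
    refine integral_mono ?_ ((kap_int μ (1 / 2 * s)).const_mul _) fun O => ?_
    · exact integrable_of_cont μ (((continuous_const.mul (continuous_fro_sub 1)).pow k).mul
        (Real.continuous_exp.comp (continuous_const.mul (continuous_fro_sub 1))))
    · dsimp only
      have h0 : 0 ≤ s * nsqm ((O : Md d) - 1) := mul_nonneg hs.le (fro_nonneg _)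
      obtain ⟨X, hX⟩ : ∃ X : ℝ, X = s * nsqm ((O : Md d) - 1) := ⟨_, rfl⟩
      have e1 : -s * nsqm ((O : Md d) - 1) = -X := by rw [hX]; ring
      have e2 : -(1 / 2 * s) * nsqm ((O : Md d) - 1) = -X / 2 := by rw [hX]; ring
      rw [e1, e2, ← hX]
      rw [← hX] at h0
      have h2 := Real.pow_div_factorial_le_exp (X / 2) (by positivity) k
      rw [div_le_iff₀ (by positivity), div_pow, div_le_iff₀ (by positivity)] at h2
      have h3 : Real.exp (-X / 2) = Real.exp (X / 2) * Real.exp (-X) := by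
        rw [← Real.exp_add]
        congr 1
        ring
      rw [h3]
      calc X ^ k * Real.exp (-X) ≤ (Real.exp (X / 2) * (k.factorial : ℝ) * 2 ^ k) * Real.exp (-X) :=
            mul_le_mul_of_nonneg_right h2 (Real.exp_pos _).le
        _ = _ := by ring
  refine h1.trans ?_
  rw [integral_const_mul, mul_assoc (2 ^ k * (k.factorial : ℝ))]
  exact mul_le_mul_of_nonneg_left (h s hs) (by positivity)

end kap

end Pool.Agent.Helper76.T6
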